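import Mathlib
import Pool.Agent.R221.SK.Cheb
import Pool.Agent.R221.FT.Defs
import Pool.Agent.R221.FT.Main
import Pool.Agent.R221.FT.Loc
import Pool.Agent.R221.FT.Four
import Pool.Agent.R221.FT.Rot
import Pool.Agent.R221.FT.Cmp
import Pool.Agent.R221.FT.Blk
import Pool.Agent.R221.FT.Rec
import Pool.Agent.R221.FT.Gro
import Pool.Agent.R221.FT.Ser
import Pool.Agent.R221.FT.Dual
import Pool.Agent.R221.FT.Fin

/-! Powers of strongly Kreiss bounded operators on Banach spaces of Fourier type `p`. -/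

namespace Pool.Agent.Results.MP_f9ecb8_an.FourierTypeGrowth
open Finset MeasureTheory
open scoped Real
universe u

/-- `T` is strongly Kreiss bounded with constant `K`: for all `|ζ| > 1` the operator `ζ - T` is
invertible and `‖(ζ - T)⁻ᵏ‖ ≤ K / (|ζ| - 1)ᵏ` for all `k ≥ 1`. -/
def StronglyKreissBounded {X : Type u} [NormedAddCommGroup X] [NormedSpace ℂ X] (K : ℝ)
    (T : X →L[ℂ] X) : Prop :=
  ∀ ζ : ℂ, 1 < ‖ζ‖ → IsUnit (algebraMap ℂ (X →L[ℂ] X) ζ - T) ∧
    ∀ k : ℕ, 1 ≤ k → ‖(resolvent T ζ) ^ k‖ ≤ K / (‖ζ‖ - 1) ^ k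

/-- `X` has Fourier type `p` with constant `C` (`q` is the conjugate exponent): the
Hausdorff-Young inequality `‖∑ e^{ikt} x_k‖_{L^q(dt/2π; X)} ≤ C (∑ ‖x_k‖^p)^{1/p}`. -/
def HasFourierType (X : Type u) [NormedAddCommGroup X] [NormedSpace ℂ X] (p q C : ℝ) : Prop :=
  ∀ (n : ℕ) (x : ℕ → X),
    ∫ t in (0 : ℝ)..(2 * π), ‖∑ k ∈ range n, Complex.exp ((k : ℂ) * (t : ℂ) * Complex.I) • x k‖ ^ q ≤
      2 * π * (C * (∑ k ∈ range n, ‖x k‖ ^ p) ^ (1 / p)) ^ q

/-- The growth bound `‖T^n‖ ≤ C n^{1/p - 1/2} (log (n+2))^β` for all `n ≥ 1`. -/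
def GrowthBound {X : Type u} [NormedAddCommGroup X] [NormedSpace ℂ X] (T : X →L[ℂ] X)
    (p C : ℝ) (β : ℕ) : Prop :=
  ∀ n : ℕ, 1 ≤ n → ‖T ^ n‖ ≤ C * (n : ℝ) ^ (1 / p - 1 / 2) * (Real.log (n + 2)) ^ β

/-- Let `1 < p ≤ 2`, `q` the conjugate exponent. There are `C, β` depending only on `p`, the
Fourier type constant and the Kreiss constant `K` such that every strongly Kreiss bounded operator
`T` with constant `K` on a Banach space `X` with `X` and `X*` of Fourier type `p` satisfies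
`‖T^n‖ ≤ C n^{1/p - 1/2} (log (n+2))^β` for all `n ≥ 1`. -/
theorem result (p q : ℝ) (hpq : p.HolderConjugate q) (hp : p ≤ 2) (CF K : ℝ) (hCF : 0 ≤ CF) :
    ∃ (C : ℝ) (β : ℕ), ∀ (X : Type u) [NormedAddCommGroup X] [NormedSpace ℂ X] [CompleteSpace X],
      HasFourierType X p q CF → HasFourierType (X →L[ℂ] ℂ) p q CF →
        ∀ T : X →L[ℂ] X, StronglyKreissBounded K T → GrowthBound T p C β := by
  have hrot := Pool.Agent.R221.FT.rot_
  have hcmp := Pool.Agent.R221.FT.cmp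
  have hloc := Pool.Agent.R221.FT.loc Pool.Agent.R221.FT.four hrot
  have hblk := Pool.Agent.R221.FT.blk hloc hcmp hrot
  have hgro := Pool.Agent.R221.FT.gro hblk hcmp hrot Pool.Agent.R221.FT.rec2
  have hdual := Pool.Agent.R221.FT.dual
  have hfin := Pool.Agent.R221.FT.fin Pool.Agent.R221.SK.cheb hcmp hrot
    Pool.Agent.R221.FT.ser hdual
  exact Pool.Agent.R221.FT.main hgro hdual hfin p q CF K hpq hp hCF

end Pool.Agent.Results.MP_f9ecb8_an.FourierTypeGrowth
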